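import Pool.Agent.helper83.ORE.SpecDE

/-!
# Project ore: EQT (`B(v, y v) = 0` for singular `v`)
-/

set_option autoImplicit false

namespace Pool.Agent.ORE

open Module Pool.Agent.GS

theorem EQT : EQT_stmt := by
  intro F V _ _ _ Q h2 y hy τ hτ hfix v hv
  have e1 : y (y v) = τ • y v + v := by
    have h1 := hτ (y v)
    rw [invp] at h1
    rw [← h1, add_assoc, addV h2, add_zero]
  have hQy : Q (y v) = 0 := by rw [hy.2, hv]
  by_cases h0 : τ = 0
  · have e2 : y (y v) = v := by rw [e1, h0, zero_smul, zero_add]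
    have e3 : y (y v + v) = y v + v := by rw [hy.1.1, e2, add_comm]
    have e4 := hfix _ e3
    rw [Q_add, hQy, hv, add_zero, zero_add] at e4
    rw [pb_symm, e4]
  · have e2 : Q (y (y v)) = 0 := by rw [hy.2, hQy]
    rw [e1, Q_add, Q_smul, hQy, hv, mul_zero, add_zero, zero_add, map_smul, LinearMap.smul_apply,
      smul_eq_mul] at e2
    rw [pb_symm]
    exact (mul_eq_zero.1 e2).resolve_left h0

end Pool.Agent.ORE
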