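import Pool.Agent.helper53.ORE.Spec

/-!
# Project ore: MID (a vector in the orthogonal space of `x`, not orthogonal to `v` and `w`, not singular)
-/

set_option autoImplicit false

namespace Pool.Agent.ORE

open Module Pool.Agent.GS

/-- `v` is not a multiple of `x`: there is `c` orthogonal to `x` and not orthogonal to `v`. -/
theorem MID_one {F V : Type} [Field F] [AddCommGroup V] [Module F V] (Q : QuadraticForm F V)
    (hN : Nd Q) (x v : V) (hv : ∀ c : F, v ≠ c • x) : ∃ c, pb Q c x = 0 ∧ pb Q c v ≠ 0 := by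
  by_contra hcon
  push Not at hcon
  by_cases hx : ∀ z, pb Q z x = 0
  · apply hv 0
    rw [zero_smul]
    apply hN
    intro y
    rw [pb_symm]
    exact hcon y (hx y)
  · push Not at hx
    obtain ⟨z, hz⟩ := hx
    apply hv (pb Q z v / pb Q z x)
    rw [← sub_eq_zero]
    apply hN
    intro y
    have h1 := hcon (y - (pb Q y x / pb Q z x) • z) (by
      rw [map_sub, LinearMap.sub_apply, map_smul, LinearMap.smul_apply, smul_eq_mul,
        div_mul_cancel₀ _ hz, sub_self])
    rw [map_sub, LinearMap.sub_apply, map_smul, LinearMap.smul_apply, smul_eq_mul] at h1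
    rw [pb_symm, map_sub, map_smul, smul_eq_mul]
    rw [← h1]
    field_simp

theorem MID_two {F V : Type} [Field F] [AddCommGroup V] [Module F V] (Q : QuadraticForm F V)
    (hN : Nd Q) (x v w : V) (hv : ∀ c : F, v ≠ c • x) (hw : ∀ c : F, w ≠ c • x) :
    ∃ c, pb Q c x = 0 ∧ pb Q c v ≠ 0 ∧ pb Q c w ≠ 0 := by
  obtain ⟨c₁, h1, h2⟩ := MID_one Q hN x v hv
  obtain ⟨c₂, h3, h4⟩ := MID_one Q hN x w hw
  by_cases h5 : pb Q c₁ w = 0
  · by_cases h6 : pb Q c₂ v = 0
    · refine ⟨c₁ + c₂, ?_, ?_, ?_⟩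
      · rw [map_add, LinearMap.add_apply, h1, h3, add_zero]
      · rw [map_add, LinearMap.add_apply, h6, add_zero]
        exact h2
      · rw [map_add, LinearMap.add_apply, h5, zero_add]
        exact h4
    · exact ⟨c₂, h3, h6, h4⟩
  · exact ⟨c₁, h1, h2, h5⟩

theorem MID_three {F V : Type} [Field F] [AddCommGroup V] [Module F V] [FiniteDimensional F V]
    (Q : QuadraticForm F V) (hN : Nd Q) (h8 : 8 ≤ finrank F V) (s : Fin 4 → V)
    (hs : pb Q (s 0) (s 1) ≠ 0) : ∃ e, (∀ i, pb Q (s i) e = 0) ∧ Q e ≠ 0 := by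
  have hrefl : (pb Q).IsRefl := fun u v h => by rw [pb_symm]; exact h
  have hnd : (pb Q).Nondegenerate :=
    ⟨fun u hu => hN u hu, fun u hu => hN u fun v => by rw [pb_symm]; exact hu v⟩
  set W : Submodule F V := Submodule.span F (Set.range s) with hW
  have hWdim : finrank F W ≤ 4 := by
    have h1 : finrank F W ≤ Fintype.card (Fin 4) := finrank_range_le_card s
    rwa [Fintype.card_fin] at h1
  have hEdim : finrank F ((pb Q).orthogonal W) = finrank F V - finrank F W :=
    LinearMap.BilinForm.finrank_orthogonal hnd W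
  have hsW : ∀ i, s i ∈ W := fun i => Submodule.subset_span ⟨i, rfl⟩
  by_contra hcon
  push Not at hcon
  have hE0 : ∀ e ∈ (pb Q).orthogonal W, Q e = 0 := by
    intro e he
    apply hcon e
    intro i
    exact he (s i) (hsW i)
  have hEE : (pb Q).orthogonal W ≤ (pb Q).orthogonal ((pb Q).orthogonal W) := by
    intro e he f hf
    change pb Q f e = 0
    have h1 := Q_add Q f e
    rw [hE0 f hf, hE0 e he, hE0 (f + e) (Submodule.add_mem _ hf he)] at h1
    linear_combination -h1
  rw [LinearMap.BilinForm.orthogonal_orthogonal hnd hrefl W] at hEE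
  have hEq : (pb Q).orthogonal W = W := by
    apply Submodule.eq_of_le_of_finrank_le hEE
    omega
  apply hs
  have h1 : s 1 ∈ (pb Q).orthogonal W := by
    rw [hEq]
    exact hsW 1
  exact h1 (s 0) (hsW 0)

theorem MID : MID_stmt := by
  intro F V _ _ _ _ _ Q h2 hN h8 x v w hv hw
  obtain ⟨c, h3, h4, h5⟩ := MID_two Q hN x v w hv hw
  by_cases h6 : Q c = 0
  · obtain ⟨e, he, hq⟩ := MID_three Q hN h8 ![c, v, w, x] h4
    have e0 : pb Q c e = 0 := he 0
    have e1 : pb Q v e = 0 := he 1
    have e2 : pb Q w e = 0 := he 2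
    have e3 : pb Q x e = 0 := he 3
    rw [pb_symm] at e1 e2 e3
    refine ⟨c + e, ?_, ?_, ?_, ?_⟩
    · rw [map_add, LinearMap.add_apply, h3, e3, add_zero]
    · rw [map_add, LinearMap.add_apply, e1, add_zero]
      exact h4
    · rw [map_add, LinearMap.add_apply, e2, add_zero]
      exact h5
    · rw [Q_add, h6, e0, zero_add, add_zero]
      exact hq
  · exact ⟨c, h3, h4, h5, h6⟩

end Pool.Agent.ORE
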