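import Pool.Agent.helper53.ORE.Spec

/-!
# Project ore: W2 (Witt's theorem for pairs, with an element of the commutator subgroup)
-/

set_option autoImplicit false

namespace Pool.Agent.ORE

open Module Pool.Agent.GS

theorem W2_clOQ {F V : Type} [Field F] [AddCommGroup V] [Module F V] (Q : QuadraticForm F V) :
    Subgroup.closure (Set.range (rq Q)) ≤ OQ Q := by
  rw [Subgroup.closure_le]
  rintro _ ⟨a, rfl⟩
  exact rq_mem Q a

theorem W2_ne {F V : Type} [Field F] [AddCommGroup V] [Module F V] (x v : V)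
    (h : LinearIndependent F ![x, v]) : (∀ c : F, v ≠ c • x) ∧ x ≠ 0 := by
  rw [LinearIndependent.pair_iff] at h
  constructor
  · intro c hc
    have h1 := h (-c) 1 (by rw [hc, neg_smul, one_smul, neg_add_cancel])
    exact one_ne_zero h1.2
  · intro hx
    have h1 := h 1 0 (by rw [hx, smul_zero, zero_smul, add_zero])
    exact one_ne_zero h1.1

theorem W2 (st : ST1_stmt) (cl : CLQ_stmt) (ns : NSV_stmt) : W2_stmt := by
  intro F V _ _ _ _ _ Q h2 hN h8 x v x' v' hi hi' hx hv hp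
  obtain ⟨hvx, hx0⟩ := W2_ne x v hi
  obtain ⟨hvx', hx0'⟩ := W2_ne x' v' hi'
  obtain ⟨g₁, hg₁, -, e1⟩ := st Q h2 hN h8 0 x x'
    (fun c hc => hx0 (by rw [hc, smul_zero])) (fun c hc => hx0' (by rw [hc, smul_zero])) hx
    (by rw [map_zero, map_zero])
  have o1 : g₁ ∈ OQ Q := W2_clOQ Q hg₁
  obtain ⟨g₂, hg₂, e2, e3⟩ := st Q h2 hN h8 x' (g₁ v) v'
    (fun c hc => by
      rw [← e1, ← o1.1.2] at hc
      exact hvx c (g₁.injective hc))
    hvx' (by rw [o1.2, hv])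
    (by rw [← e1, OQ_pb o1, e1, pb_symm, hp, pb_symm])
  obtain ⟨b, hb, hb1⟩ := ns Q h2 hN 2 ![x', v'] (by omega)
  have hb0 : Q b ≠ 0 := by rw [hb1]; exact one_ne_zero
  have p1 : pb Q x' b = 0 := by
    rw [pb_symm]
    exact hb 0
  have p2 : pb Q v' b = 0 := by
    rw [pb_symm]
    exact hb 1
  rcases cl Q h2 hN h8 b hb0 (g₂ * g₁) (Subgroup.mul_mem _ hg₂ hg₁) with h | h
  · refine ⟨_, h, ?_, ?_⟩
    · rw [Equiv.Perm.mul_apply, e1, e2]
    · rw [Equiv.Perm.mul_apply, e3]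
  · refine ⟨_, h, ?_, ?_⟩
    · rw [Equiv.Perm.mul_apply, Equiv.Perm.mul_apply, e1, e2, rq_of_orth h2 hb0 p1]
    · rw [Equiv.Perm.mul_apply, Equiv.Perm.mul_apply, e3, rq_of_orth h2 hb0 p2]

end Pool.Agent.ORE
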